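import Pool.Agent.W275.UB.Stm
import Pool.Agent.H294UB.Main

set_option autoImplicit false

/-!
UB-CORE: all preperiodic points have bounded type, over fields with local models at two primes.
-/

namespace Pool.Agent.W193.UB

open MvPolynomial Pool.Agent.H936R2 Pool.Agent.H927R2.RD H294UB Pool.Agent.W275.UB

section gen

variable {R : Type} [CommRing R] {n d : ℕ}

lemma sy_hom (v : Idx n d → R) (i : Fin n) : (sy v i).IsHomogeneous d := sys_isHomogeneous _ i

lemma map_sy {R' : Type} [CommRing R'] (φ : R →+* R') (v : Idx n d → R) :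
    (fun i => map φ (sy v i)) = sy (fun i => φ (v i)) := by
  funext i
  exact map_form φ _

lemma it_map {R' : Type} [CommRing R'] (φ : R →+* R') (v : Idx n d → R) (x : Fin n → R) (k : ℕ) :
    (pt (sy fun i => φ (v i)))^[k] (fun i => φ (x i)) = fun i => φ ((pt (sy v))^[k] x i) := by
  rw [← map_sy]
  exact pt_map φ (sy v) x k

variable {P : Fin n → MvPolynomial (Fin n) R}

lemma pt_smul (hP : ∀ i, (P i).IsHomogeneous d) (c : R) (x : Fin n → R) :
    pt P (c • x) = c ^ d • pt P x := by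
  funext i
  simp only [pt, Pi.smul_apply, smul_eq_mul]
  exact Asm.eval_smul_hom (hP i) c x

lemma it_smul (hP : ∀ i, (P i).IsHomogeneous d) (c : R) (x : Fin n → R) (k : ℕ) :
    (pt P)^[k] (c • x) = c ^ d ^ k • (pt P)^[k] x := by
  induction k with
  | zero => simp
  | succ k ih =>
    rw [Function.iterate_succ_apply', ih, pt_smul hP, Function.iterate_succ_apply', ← pow_mul,
      ← pow_succ]

/-- two iterates agree up to a unit -/
def Rl (P : Fin n → MvPolynomial (Fin n) R) (x : Fin n → R) (i j : ℕ) : Prop :=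
  ∃ c : R, IsUnit c ∧ (pt P)^[j] x = c • (pt P)^[i] x

variable {x : Fin n → R}

lemma Rl.refl (i : ℕ) : Rl P x i i := ⟨1, isUnit_one, by rw [one_smul]⟩

lemma Rl.trans {i j k : ℕ} (h1 : Rl P x i j) (h2 : Rl P x j k) : Rl P x i k := by
  obtain ⟨c, hc, h1⟩ := h1
  obtain ⟨c', hc', h2⟩ := h2
  exact ⟨c' * c, hc'.mul hc, by rw [h2, h1, smul_smul]⟩

lemma Rl.symm {i j : ℕ} (h1 : Rl P x i j) : Rl P x j i := by
  obtain ⟨c, ⟨u, rfl⟩, h1⟩ := h1
  refine ⟨((u⁻¹ : Rˣ) : R), Units.isUnit _, ?_⟩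
  rw [h1, smul_smul, Units.inv_mul, one_smul]

lemma Rl.shift (hP : ∀ i, (P i).IsHomogeneous d) {i j : ℕ} (h1 : Rl P x i j) (k : ℕ) :
    Rl P x (i + k) (j + k) := by
  obtain ⟨c, hc, h1⟩ := h1
  refine ⟨c ^ d ^ k, hc.pow _, ?_⟩
  rw [Nat.add_comm j k, Nat.add_comm i k, Function.iterate_add_apply, h1, it_smul hP,
    Function.iterate_add_apply]

lemma Rl.mul (hP : ∀ i, (P i).IsHomogeneous d) {i a : ℕ} (h1 : Rl P x i (i + a)) (k : ℕ) :
    Rl P x i (i + a * k) := by
  induction k with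
  | zero => exact Rl.refl i
  | succ k ih =>
    have h2 := h1.shift hP (a * k)
    have h3 : i + a + a * k = i + a * (k + 1) := by ring
    rw [h3] at h2
    exact ih.trans h2

lemma Rl.gcd (hP : ∀ i, (P i).IsHomogeneous d) (a b : ℕ) :
    Rl P x 0 a → Rl P x 0 b → Rl P x 0 (Nat.gcd a b) := by
  induction a, b using Nat.gcd.induction with
  | H0 b => intro _ h; rwa [Nat.gcd_zero_left]
  | H1 a b ha ih =>
    intro h1 h2
    rw [Nat.gcd_rec]
    refine ih ?_ h1
    have h3 : Rl P x 0 (a * (b / a)) := by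
      have := Rl.mul hP (i := 0) (a := a) (by rwa [zero_add]) (b / a)
      rwa [zero_add] at this
    have h4 := h3.shift hP (b % a)
    rw [zero_add, Nat.div_add_mod] at h4
    exact h2.trans h4.symm

lemma Rl.dvd (hP : ∀ i, (P i).IsHomogeneous d) {a b : ℕ} (h : Rl P x 0 a) (hab : a ∣ b) :
    Rl P x 0 b := by
  obtain ⟨k, rfl⟩ := hab
  have := Rl.mul hP (i := 0) (a := a) (by rwa [zero_add]) k
  rwa [zero_add] at this

lemma it_prim (hG : Good P) {z : Fin n → R} (hz : Prim z) (k : ℕ) : Prim ((pt P)^[k] z) := by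
  induction k with
  | zero => exact hz
  | succ k ih =>
    rw [Function.iterate_succ_apply']
    exact hG _ ih

lemma unit_of_prim {z z' : Fin n → R} {c : R} (h : z' = c • z) (hz : Prim z') : IsUnit c := by
  obtain ⟨i, hi⟩ := hz
  rw [h, Pi.smul_apply, smul_eq_mul] at hi
  exact isUnit_of_mul_isUnit_left hi

end gen

/-- good reduction from the Macaulay polynomial -/
lemma good_of_monIn {A : Type} [CommRing A] [IsLocalRing A] {n s : ℕ}
    {P : Fin n → MvPolynomial (Fin n) A} (h : MonIn s P) : Good P := by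
  intro x ⟨i, hi⟩
  by_contra hcon
  have h1 : ∀ j, pt P x j ∈ IsLocalRing.maximalIdeal A := by
    intro j
    rw [IsLocalRing.mem_maximalIdeal, mem_nonunits_iff]
    exact fun hj => hcon ⟨j, hj⟩
  have h2 := h (Finsupp.single i s) (by simp)
  have h3 : ∀ g ∈ Ideal.span (Set.range P), eval x g ∈ IsLocalRing.maximalIdeal A := by
    intro g hg
    have h4 : Ideal.span (Set.range P) ≤ (IsLocalRing.maximalIdeal A).comap (eval x) := by
      rw [Ideal.span_le]
      rintro _ ⟨j, rfl⟩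
      exact h1 j
    exact h4 hg
  have h5 := h3 _ h2
  have h6 : eval x (monomial (Finsupp.single i s) (1 : A)) = x i ^ s := by
    rw [eval_monomial, one_mul]
    exact Finsupp.prod_single_index (pow_zero (x i))
  rw [h6, IsLocalRing.mem_maximalIdeal, mem_nonunits_iff] at h5
  exact h5 (hi.pow s)

lemma prim_scalar {A K' : Type} [CommRing A] [IsDomain A] [Field K'] [Algebra A K']
    [IsFractionRing A K'] {n : ℕ} {z z' : Fin n → A} (hz : Prim z) (hz' : Prim z') (κ : K')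
    (h : ∀ l, algebraMap A K' (z' l) = κ * algebraMap A K' (z l)) :
    ∃ u : A, IsUnit u ∧ z' = u • z := by
  have hinj : Function.Injective (algebraMap A K') := IsFractionRing.injective A K'
  obtain ⟨i, v, hv⟩ := hz
  have h2 : κ = algebraMap A K' (z' i * ((v⁻¹ : Aˣ) : A)) := by
    rw [map_mul, h i, ← hv, mul_assoc, ← map_mul, Units.mul_inv, map_one, mul_one]
  have h3 : z' = (z' i * ((v⁻¹ : Aˣ) : A)) • z := by
    funext l
    apply hinj
    rw [Pi.smul_apply, smul_eq_mul, map_mul (algebraMap A K') (_ * _), ← h2, h l]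
  exact ⟨_, unit_of_prim h3 hz', h3⟩

lemma descend {K K' : Type} [Field K] [Field K'] (φ : K →+* K') {n : ℕ} {X Y : Fin n → K}
    (hX : X ≠ 0) (hY : Y ≠ 0) (κ : K') (h : ∀ l, φ (Y l) = κ * φ (X l)) :
    ∃ c : K, IsUnit c ∧ Y = c • X := by
  obtain ⟨i, hi⟩ : ∃ i, X i ≠ 0 := by
    by_contra hcon
    push Not at hcon
    exact hX (funext hcon)
  have hφi : φ (X i) ≠ 0 := (map_ne_zero φ).2 hi
  have hκ : φ (Y i / X i) = κ := by
    rw [map_div₀, h i]
    field_simp
  have h2 : Y = (Y i / X i) • X := by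
    funext l
    apply φ.injective
    rw [Pi.smul_apply, smul_eq_mul, map_mul, hκ, h l]
  refine ⟨Y i / X i, ?_, h2⟩
  rw [isUnit_iff_ne_zero]
  intro h0
  apply hY
  rw [h2, h0, zero_smul]

section transfer

variable {K K' A : Type} [Field K] [Field K'] [CommRing A] [IsDomain A] [Algebra A K']
  [IsFractionRing A K'] {n d : ℕ} (φ : K →+* K') {v : Idx n d → K} {a : Idx n d → A}
  (hav : ∀ i, algebraMap A K' (a i) = φ (v i)) {x : Fin n → K} {z : Fin n → A} {t : K'}
  (ht : t ≠ 0) (hxz : (fun i => φ (x i)) = t • (fun i => algebraMap A K' (z i)))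

include hav hxz in
lemma tr_it (k : ℕ) (l : Fin n) : φ ((pt (sy v))^[k] x l) =
    t ^ d ^ k * algebraMap A K' ((pt (sy a))^[k] z l) := by
  have h1 := it_map φ v x k
  have h2 : (fun i => φ (v i)) = fun i => algebraMap A K' (a i) := funext fun i => (hav i).symm
  rw [h2, hxz, it_smul (sy_hom _), it_map] at h1
  exact (congrFun h1 l).symm

include hav ht hxz in
lemma tr_ne (hG : Good (sy a)) (hz : Prim z) (k : ℕ) : (pt (sy v))^[k] x ≠ 0 := by
  intro h0
  obtain ⟨i, hi⟩ := it_prim hG hz k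
  have h1 := tr_it φ hav hxz k i
  rw [h0, Pi.zero_apply, map_zero] at h1
  exact mul_ne_zero (pow_ne_zero _ ht) (hi.map (algebraMap A K')).ne_zero h1.symm

include hav ht hxz in
lemma tr_rel (hG : Good (sy a)) (hz : Prim z) (i j : ℕ) :
    Rl (sy v) x i j ↔ Rl (sy a) z i j := by
  have hit := tr_it φ hav hxz
  constructor
  · rintro ⟨c, hc, h⟩
    refine prim_scalar (K' := K') (it_prim hG hz i) (it_prim hG hz j)
      (φ c * t ^ d ^ i / t ^ d ^ j) fun l => ?_
    have h1 := hit j l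
    rw [h, Pi.smul_apply, smul_eq_mul, map_mul, hit i l] at h1
    have h2 : t ^ d ^ j ≠ 0 := pow_ne_zero _ ht
    field_simp
    linear_combination -h1
  · rintro ⟨u, hu, h⟩
    refine descend φ (tr_ne φ hav ht hxz hG hz i) (tr_ne φ hav ht hxz hG hz j)
      (t ^ d ^ j * algebraMap A K' u / t ^ d ^ i) fun l => ?_
    rw [hit j l, hit i l, h, Pi.smul_apply, smul_eq_mul, map_mul]
    have h2 : t ^ d ^ i ≠ 0 := pow_ne_zero _ ht
    field_simp

end transfer

/-- the hypothesis on `W` given by `S_red` -/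
def RedW (p D n W : ℕ) : Prop := ∀ (A : Type) [CommRing A] [IsDomain A]
  [IsDiscreteValuationRing A] (π : A), Irreducible π →
  Finite (A ⧸ Ideal.span {π}) → Nat.card (A ⧸ Ideal.span {π}) ≤ p ^ D →
  ∀ (d : ℕ) (P : Fin n → MvPolynomial (Fin n) A), (∀ i, (P i).IsHomogeneous d) → Good P →
  ∀ x : Fin n → A, Prim x → Per P x →
  ∃ l : A, IsUnit l ∧ Cong π 1 ((pt P)^[W] x) (l • x) ∧
    ∀ i j, π ∣ (jk P W x * jk P W x) i j - l * (jk P W x) i j

lemma pt_itr (hItr : S_itr) {R : Type} [CommRing R] {n : ℕ}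
    (P : Fin n → MvPolynomial (Fin n) R) (k : ℕ) : pt (itr P k) = (pt P)^[k] :=
  funext fun z => (hItr R n 0 P).1 k z

lemma it_itr (hItr : S_itr) {R : Type} [CommRing R] {n : ℕ}
    (P : Fin n → MvPolynomial (Fin n) R) (k m : ℕ) : (pt (itr P k))^[m] = (pt P)^[k * m] := by
  rw [pt_itr hItr, Function.iterate_mul]

lemma good_itr (hItr : S_itr) {R : Type} [CommRing R] {n : ℕ}
    {P : Fin n → MvPolynomial (Fin n) R} (hG : Good P) (k : ℕ) : Good (itr P k) := by
  intro x hx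
  rw [pt_itr hItr]
  exact it_prim hG hx k

lemma per_dvr (hItr : S_itr) (hLev : S_lev) {p D n W : ℕ} (hp : p.Prime) (hR : RedW p D n W)
    {A : Type} [CommRing A] [IsDomain A] [IsDiscreteValuationRing A] (π : A) (hπ : Irreducible π)
    (hπp : π ∣ (p : A)) (hfin : Finite (A ⧸ Ideal.span {π}))
    (hcard : Nat.card (A ⧸ Ideal.span {π}) ≤ p ^ D) {d : ℕ}
    {P : Fin n → MvPolynomial (Fin n) A} (hP : ∀ i, (P i).IsHomogeneous d) (hG : Good P)
    {x : Fin n → A} (hx : Prim x) {m : ℕ} (hm : 0 < m) (hper : Rl P x 0 m) :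
    ∃ r : ℕ, Rl P x 0 (W * p ^ r) := by
  have hPer : Per P x := by
    obtain ⟨c, _, hc⟩ := hper
    exact ⟨m, hm, c, hc⟩
  obtain ⟨l, hl, hcong, hjk⟩ := hR A π hπ hfin hcard d P hP hG x hx hPer
  have hPer' : Per (itr P W) x := by
    obtain ⟨c, _, hc⟩ := hper.dvd hP (Dvd.intro_left W rfl : m ∣ W * m)
    refine ⟨m, hm, c, ?_⟩
    rw [it_itr hItr]
    exact hc
  obtain ⟨r, c, hc, h⟩ := hLev A π hπ p hp hπp n (d ^ W) (itr P W) ((hItr A n d P).2.2.1 hP W)
    (good_itr hItr hG W) x l hx hl (by rw [pt_itr hItr]; exact hcong)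
    (by rw [(hItr A n d P).2.1 W x]; exact hjk) hPer'
  refine ⟨r, c, hc, ?_⟩
  rw [it_itr hItr] at h
  exact h

lemma exists_prim' {K K' A : Type} [Field K] [Field K'] [CommRing A] [IsDomain A]
    [IsDiscreteValuationRing A] [Algebra A K'] [IsFractionRing A K'] (π : A) (hπ : Irreducible π)
    (φ : K →+* K') {n : ℕ} {x : Fin n → K} (hx : x ≠ 0) :
    ∃ (z : Fin n → A) (t : K'), t ≠ 0 ∧ Prim z ∧
      (fun i => φ (x i)) = t • (fun i => algebraMap A K' (z i)) := by
  have h0 : (fun i => φ (x i)) ≠ 0 := by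
    intro h
    apply hx
    funext i
    have := congrFun h i
    exact (map_eq_zero φ).1 this
  exact Asm.exists_prim (A := A) π hπ (fun i => φ (x i)) h0

lemma LM_per (hItr : S_itr) (hLev : S_lev) {p D V n d W s : ℕ} (hp : p.Prime)
    (hR : RedW p D n W) {c₁ c₂ : MvPolynomial (Idx n d) ℤ} (hMac : Mac c₁ s) {K : Type}
    [Field K] {v : Idx n d → K} (hLM : LM p D V c₁ c₂ K v) {y : Fin n → K} (hy : y ≠ 0) {m : ℕ}
    (hm : 0 < m) (hper : Rl (sy v) y 0 m) : ∃ r : ℕ, Rl (sy v) y 0 (W * p ^ r) := by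
  obtain ⟨K', _, φ, A, _, _, _, _, _, π, a, hπ, hπp, hav, hc1, _, hfin⟩ := hLM
  obtain ⟨z, t, ht, hz, hxz⟩ := exists_prim' (A := A) π hπ φ hy
  have hG : Good (sy a) := good_of_monIn (hMac A a hc1)
  have h1 := hfin 1
  rw [pow_one, mul_one] at h1
  obtain ⟨r, hr⟩ := per_dvr hItr hLev hp hR π hπ hπp h1.1 h1.2 (sy_hom a) hG hz hm
    ((tr_rel φ hav ht hxz hG hz 0 m).1 hper)
  exact ⟨r, (tr_rel φ hav ht hxz hG hz 0 _).2 hr⟩

/-- the determinant of the Jacobian of an iterate -/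
lemma det_jk {R : Type} [CommRing R] {n : ℕ} (P : Fin n → MvPolynomial (Fin n) R) (k : ℕ)
    (z : Fin n → R) : (jk P k z).det = ∏ j ∈ Finset.range k, (jac P ((pt P)^[j] z)).det := by
  induction k with
  | zero => simp [jk]
  | succ k ih => rw [jk, Matrix.det_mul, ih, Finset.prod_range_succ, mul_comm]

lemma prod_not_dvd {A : Type} [CommRing A] [IsDomain A] {π : A} (hπ : Prime π) (V : ℕ)
    (f : ℕ → A) (e : ℕ) (h : ∀ j < e, ¬ π ^ (V + 1) ∣ f j) :
    ¬ π ^ (e * V + 1) ∣ ∏ j ∈ Finset.range e, f j := by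
  induction e with
  | zero =>
    simp only [zero_mul, zero_add, pow_one, Finset.range_zero, Finset.prod_empty]
    exact fun h => hπ.not_isUnit (isUnit_of_dvd_one h)
  | succ e ih =>
    have h1 := ih fun j hj => h j (by omega)
    have h2 := h e (by omega)
    rw [Finset.prod_range_succ]
    rw [← emultiplicity_lt_iff_not_dvd] at h1 h2 ⊢
    rw [emultiplicity_mul hπ]
    have h3 : emultiplicity π (∏ j ∈ Finset.range e, f j) ≤ ((e * V : ℕ) : ℕ∞) := by
      rw [Nat.cast_add, Nat.cast_one] at h1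
      exact Order.le_of_lt_add_one h1
    have h4 : emultiplicity π (f e) ≤ (V : ℕ∞) := by
      rw [Nat.cast_add, Nat.cast_one] at h2
      exact Order.le_of_lt_add_one h2
    have h5 := add_le_add h3 h4
    refine lt_of_le_of_lt h5 ?_
    rw [← Nat.cast_add]
    apply Nat.cast_lt.2
    have : (e + 1) * V = e * V + V := by ring
    omega

lemma LM_tail (hItr : S_itr) (hTail : S_tail) {p D V n d e s s₂ : ℕ} (hd : 2 ≤ d) (he : 0 < e)
    {c₁ c₂ : MvPolynomial (Idx n d) ℤ} (hMac : Mac c₁ s) (hCrit : Crit c₂ e s₂) {K : Type}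
    [Field K] [CharZero K] {v : Idx n d → K} (hLM : LM p D V c₁ c₂ K v)
    (hD : ∀ y : Fin n → K, y ≠ 0 → ∀ m, 0 < m → Rl (sy v) y 0 m → Rl (sy v) y 0 e)
    {x : Fin n → K} (hx : x ≠ 0) {m k : ℕ} (hmk : m < k) (hpre : Rl (sy v) x m k) :
    Rl (sy v) x (e * (p ^ (D * (e * V + 1))) ^ n) (e * (p ^ (D * (e * V + 1))) ^ n + e) := by
  obtain ⟨K', _, φ, A, _, _, _, _, _, π, a, hπ, hπp, hav, hc1, hc2, hfin⟩ := hLM
  obtain ⟨z, t, ht, hz, hxz⟩ := exists_prim' (A := A) π hπ φ hx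
  have hG : Good (sy a) := good_of_monIn (hMac A a hc1)
  have htr := tr_rel φ hav ht hxz hG hz
  have : CharZero K' := charZero_of_injective_ringHom φ.injective
  have : CharZero A := ⟨fun i j hij => by
    have h1 := congrArg (algebraMap A K') hij
    rw [map_natCast, map_natCast] at h1
    exact_mod_cast h1⟩
  set w : ℕ := (p ^ (D * (e * V + 1))) ^ n with hw
  have hPh := sy_hom a
  rw [htr] at hpre ⊢
  set P := sy a with hP
  have hQ1 : (pt (itr P e)) = (pt P)^[e] := pt_itr hItr P e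
  -- preperiodicity
  have hpre' : Rl P z (e * m) (e * k) := by
    have h1 : Rl P z (e * m) (e * m + (k - m)) := by
      have h2 := hpre.shift hPh (e * m - m)
      have h3 : m + (e * m - m) = e * m := by
        have : m ≤ e * m := Nat.le_mul_of_pos_left m he
        omega
      have h4 : k + (e * m - m) = e * m + (k - m) := by omega
      rwa [h3, h4] at h2
    have h5 := Rl.mul hPh h1 e
    have h6 : e * m + (k - m) * e = e * k := by
      rw [Nat.mul_comm (k - m) e, ← Nat.mul_add]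
      congr 1
      omega
    rwa [h6] at h5
  obtain ⟨c0, _, hc0⟩ := hpre'
  have key : ∃ c : A, IsUnit c ∧ (pt (itr P e))^[w + 1] z = c • (pt (itr P e))^[w] z := by
    refine hTail A π hπ n (d ^ e) (e * V) w (Nat.one_le_pow _ _ (by omega)) (itr P e)
      ((hItr A n d P).2.2.1 hPh e) (good_itr hItr hG e) (hfin _).1
      (Nat.pow_le_pow_left (hfin _).2 n) z hz ⟨m, k, hmk, c0, ?_⟩ ?_
    · rw [it_itr hItr, it_itr hItr]
      exact hc0
    · intro i ⟨m1, hm1, c1, hc1'⟩
      -- the point is periodic for `F`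
      rw [it_itr hItr, it_itr hItr, ← Function.iterate_add_apply] at hc1'
      have hu1 : IsUnit c1 := unit_of_prim hc1' (it_prim hG hz _)
      have h1 : Rl P z (e * i) (e * m1 + e * i) := ⟨c1, hu1, hc1'⟩
      rw [← htr] at h1
      obtain ⟨c2', hc2', h2⟩ := h1
      rw [Function.iterate_add_apply] at h2
      have h3 := hD _ (tr_ne φ hav ht hxz hG hz (e * i)) (e * m1) (Nat.mul_pos he hm1)
        ⟨c2', hc2', h2⟩
      obtain ⟨c3, hc3, h4⟩ := h3
      rw [Function.iterate_zero, id_eq, ← Function.iterate_add_apply] at h4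
      have h5 : Rl (sy v) x (e * i) (e + e * i) := ⟨c3, hc3, h4⟩
      rw [htr] at h5
      obtain ⟨u, hu, h6⟩ := h5
      have h7 : (pt P)^[e] ((pt P)^[e * i] z) = u • (pt P)^[e * i] z := by
        rw [← Function.iterate_add_apply]
        exact h6
      refine ⟨⟨u, ?_⟩, ?_⟩
      · rw [it_itr hItr, hQ1]
        exact h7
      · rw [it_itr hItr, (hItr A n d P).2.1 e, det_jk]
        apply prod_not_dvd hπ.prime
        intro j _ hdvd
        apply hc2
        set y := (pt P)^[j] ((pt P)^[e * i] z) with hy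
        have h8 : (pt P)^[e] y = u ^ d ^ j • y := by
          rw [hy, ← Function.iterate_add_apply, Nat.add_comm e j, Function.iterate_add_apply, h7,
            it_smul hPh]
        obtain ⟨l, hl⟩ : Prim y := it_prim hG (it_prim hG hz _) j
        have h9 := hCrit A a y (u ^ d ^ j) h8 l
        have h10 := hdvd.trans h9
        exact ((hl.pow s₂).dvd_mul_right).1 h10
  obtain ⟨c, hc, h⟩ := key
  refine ⟨c, hc, ?_⟩
  rw [it_itr hItr, it_itr hItr, Nat.mul_add, Nat.mul_one] at h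
  exact h

theorem main : S_itr → S_eul → S_red → S_lev → S_tail → S_core := by
  intro hItr _ hRed hLev hTail N d D p q hd hp hq hpq
  obtain ⟨Wp, hWp, hRp⟩ := hRed p D (N + 1) hp
  obtain ⟨Wq, hWq, hRq⟩ := hRed q D (N + 1) hq
  refine ⟨Wp * Wq, Nat.mul_pos hWp hWq, fun V =>
    ⟨Wp * Wq * (p ^ (D * (Wp * Wq * V + 1))) ^ (N + 1), ?_⟩⟩
  intro c₁ c₂ s s₂ hMac hCrit K _ _ v hLp hLq x hx ⟨m, k, hmk, c, hc, hpre⟩
  have hD : ∀ y : Fin (N + 1) → K, y ≠ 0 → ∀ m, 0 < m → Rl (sy v) y 0 m →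
      Rl (sy v) y 0 (Wp * Wq) := by
    intro y hy m hm hper
    obtain ⟨r, hr⟩ := LM_per hItr hLev hp hRp hMac hLp hy hm hper
    obtain ⟨r', hr'⟩ := LM_per hItr hLev hq hRq hMac hLq hy hm hper
    have hg := Rl.gcd (sy_hom v) _ _ hr hr'
    refine hg.dvd (sy_hom v) ?_
    have h1 : Nat.gcd (Wp * p ^ r) (Wq * q ^ r') ∣
        Nat.gcd (Wp * Wq * p ^ r) (Wp * Wq * q ^ r') := by
      apply Nat.dvd_gcd
      · exact (Nat.gcd_dvd_left _ _).trans ⟨Wq, by ring⟩
      · exact (Nat.gcd_dvd_right _ _).trans ⟨Wp, by ring⟩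
    rw [Nat.gcd_mul_left] at h1
    have h2 : Nat.gcd (p ^ r) (q ^ r') = 1 :=
      Nat.Coprime.pow r r' ((Nat.coprime_primes hp hq).2 hpq)
    rwa [h2, mul_one] at h1
  obtain ⟨c', hc', h⟩ := LM_tail hItr hTail hd (Nat.mul_pos hWp hWq) hMac hCrit hLp hD hx hmk
    ⟨c, isUnit_iff_ne_zero.2 hc, hpre⟩
  exact ⟨c', hc'.ne_zero, h⟩

end Pool.Agent.W193.UB

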